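import Pool.Agent.MP_81f5b7_pr.H66.Spec

/-! Conservation: freezing pays for the sizes of the determined sets. -/

set_option linter.unusedSectionVars false

namespace Pool.Agent.MP_81f5b7_pr.H66

open Finset
open scoped Classical

namespace LAM

variable {V : Type} [Fintype V] [DecidableEq V] {S : Finset (V → C3)}

/-- free vertices -/
noncomputable def fr (S : Finset (V → C3)) : Finset V := univ.filter fun v => ¬Fz S v

theorem mem_fr {v : V} : v ∈ fr S ↔ ¬Fz S v := by simp [fr]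

theorem fr_gr (S : Finset (V → C3)) (B : Finset (Sym2 V)) : (fr (gr S B)).card ≤ (fr S).card :=
  card_le_card fun _ h => mem_fr.2 fun h' => mem_fr.1 h (h'.mono (gr_sub S B))

/-- frozen vertices that force the colour `z.2` at `z.1` -/
noncomputable def T (S : Finset (V → C3)) (z : V × C3) : Finset V :=
  univ.filter fun w => ¬Fz S z.1 ∧ (∃ σ ∈ S, σ z.1 = z.2) ∧
    ∃ σ ∈ S, σ z.1 ≠ z.2 ∧ w ∈ Fa S (σ z.1)

theorem mem_T {z : V × C3} {w : V} : w ∈ T S z ↔ ¬Fz S z.1 ∧ (∃ σ ∈ S, σ z.1 = z.2) ∧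
    ∃ σ ∈ S, σ z.1 ≠ z.2 ∧ w ∈ Fa S (σ z.1) := by simp only [T, mem_filter, mem_univ, true_and]

theorem freeze (h : Mj S) {z : V × C3} {w : V} (hw : w ∈ T S z) :
    (fr (gr S {s(z.1, w)})).card + (Cl S z).card ≤ (fr S).card := by
  obtain ⟨-, ⟨a, ha, ha'⟩, c, hc, hc', hw⟩ := mem_T.1 hw
  rw [mem_Fa] at hw
  have e := gr_pair (x := z.1) (y := w) ⟨a, ha, by rw [ha', hw a ha]; exact hc'.symm⟩
  have k : ∀ σ ∈ gr S {s(z.1, w)}, σ ∈ S ∧ σ z.1 = z.2 := fun σ hσ => by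
    rw [e, mem_filter] at hσ
    refine ⟨hσ.1, ?_⟩
    rcases (h σ hσ.1 a ha c hc).1 z.1 with t | t | t
    · exact t.trans ha'
    · exact absurd (t.trans (hw σ hσ.1).symm) hσ.2
    · exact absurd (t.symm.trans ha') hc'
  rw [← card_union_of_disjoint (disjoint_left.2 fun v h1 h2 => mem_fr.1 h1 fun σ hσ σ' hσ' =>
    (mem_Cl.1 h2).2.2.2 σ (k σ hσ).1 σ' (k σ' hσ').1 (k σ hσ).2 (k σ' hσ').2)]
  refine card_le_card (union_subset (fun v hv => mem_fr.2 fun h' => ?_) fun v hv => ?_)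
  · exact mem_fr.1 hv (h'.mono (gr_sub _ _))
  · exact mem_fr.2 (mem_Cl.1 hv).2.2.1

theorem inj (h : Mj S) : Set.InjOn (fun p : (_ : V × C3) × V => s(p.1.1, p.2))
    (univ.sigma (T S) : Finset ((_ : V × C3) × V)) := by
  rintro ⟨⟨x, b⟩, w⟩ h1 ⟨⟨x', b'⟩, w'⟩ h2 e
  obtain ⟨f1, ⟨a, ha, ha'⟩, c, hc, hc', hw⟩ := mem_T.1 (mem_sigma.1 (mem_coe.1 h1)).2
  obtain ⟨-, ⟨a₂, ha₂, ha₂'⟩, c₂, hc₂, hc₂', hw₂⟩ := mem_T.1 (mem_sigma.1 (mem_coe.1 h2)).2
  dsimp only at *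
  rcases Sym2.eq_iff.1 e with ⟨rfl, rfl⟩ | ⟨rfl, -⟩
  · have e1 : c x = c₂ x := (mem_Fa.1 hw a ha).symm.trans (mem_Fa.1 hw₂ a ha)
    have e2 : b = b' := by
      rcases (h a ha a₂ ha₂ c hc).1 x with t | t | t
      · rw [← ha', t, ha₂']
      · exact absurd (t.symm.trans ha') hc'
      · exact absurd ((e1.symm.trans t.symm).trans ha₂') hc₂'
    rw [e2]
  · exact absurd (Fz_of_Fa hw₂) f1

theorem total (h : Mj S) {c : ℝ} (hc : ∀ a, c ≤ (Fa S a).card) :
    c * AA S ≤ ∑ e : Sym2 V, (((fr S).card : ℝ) - (fr (gr S {e})).card) := by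
  have h1 : c * AA S ≤ ∑ p ∈ univ.sigma (T S), ((Cl S p.1).card : ℝ) := by
    rw [sum_sigma, AA, Nat.cast_sum, mul_sum]
    refine sum_le_sum fun z _ => ?_
    dsimp only
    rw [sum_const, nsmul_eq_mul]
    rcases (Cl S z).eq_empty_or_nonempty with e | ⟨v, hv⟩
    · simp [e]
    · obtain ⟨f1, f2, -⟩ := mem_Cl.1 hv
      obtain ⟨σ, hσ, hσ'⟩ := not_Fz f1 z.2
      refine mul_le_mul_of_nonneg_right ((hc (σ z.1)).trans ?_) (Nat.cast_nonneg _)
      exact_mod_cast card_le_card fun w hw => mem_T.2 ⟨f1, f2, σ, hσ, hσ', hw⟩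
  have h2 : ∑ p ∈ univ.sigma (T S), ((Cl S p.1).card : ℝ) ≤ ∑ p ∈ univ.sigma (T S),
      (((fr S).card : ℝ) - (fr (gr S {s(p.1.1, p.2)})).card) := sum_le_sum fun p hp => by
    have : ((fr (gr S {s(p.1.1, p.2)})).card : ℝ) + (Cl S p.1).card ≤ (fr S).card := by
      exact_mod_cast freeze h (mem_sigma.1 hp).2
    linarith
  refine (h1.trans h2).trans ?_
  rw [← sum_image (f := fun e : Sym2 V => ((fr S).card : ℝ) - (fr (gr S {e})).card) (inj h)]
  exact sum_le_sum_of_subset_of_nonneg (subset_univ _) fun e _ _ =>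
    sub_nonneg.2 (Nat.cast_le.2 (fr_gr S _))

theorem main {q c : ℝ} (h0 : 0 ≤ q) (h1 : q ≤ 1) (h2 : q * Fintype.card (Sym2 V) ≤ 1 / 2)
    (hc : 0 < c) (m : ℕ) : ∀ S : Finset (V → C3), Mj S → (∀ a, c ≤ (Fa S a).card) →
      EL q m (lam q S) ≤ 2 / c * (fr S).card := by
  induction m with
  | zero => exact fun S _ _ => by rw [EL_zero, lam]; positivity
  | succ m ih =>
    intro S h ha
    have a1 : EL q (m + 1) (lam q S) ≤ Ex q univ fun B => q * AA S + 2 / c * (fr S).card -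
        2 / c * (((fr S).card : ℝ) - (fr (gr S B)).card) := by
      rw [EL_succ]
      refine Ex_mono h0 h1 fun B _ => ?_
      have := ih (gr S B) (h.gr B) fun a =>
        (ha a).trans (Nat.cast_le.2 (card_le_card (Fa_mono (gr_sub S B) a)))
      simp only [lam]
      rw [EL_add, EL_const]
      change _ + EL q m (lam q (gr S B)) ≤ _
      linarith
    rw [Ex_sub, Ex_const, Ex_mul] at a1
    have a2 := Ex_single (s := univ) (F := fun B => ((fr S).card : ℝ) - (fr (gr S B)).card) h0 h1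
      fun B _ => sub_nonneg.2 (Nat.cast_le.2 (fr_gr S B))
    have a3 := total h ha
    have a4 := half_le h0 h1 h2
    rw [card_univ] at a2
    have a5 : q / 2 * (c * AA S) ≤ _ :=
      (mul_le_mul a4 a3 (by positivity) (le_trans (by positivity) a4)).trans a2
    have a6 := mul_le_mul_of_nonneg_left a5 (show 0 ≤ 2 / c by positivity)
    have a7 : 2 / c * (q / 2 * (c * AA S)) = q * AA S := by field_simp
    linarith

end LAM

theorem rowLAM : SLAM := by
  intro V _ _ q m S φ hn hq h _ hφ ha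
  obtain ⟨h0, h1, -, h2⟩ := hq.le hn
  have n0 : (0 : ℝ) < Fintype.card V := by exact_mod_cast lt_of_lt_of_le two_pos hn
  refine (LAM.main h0 h1 h2 (mul_pos hφ n0) m S h ha).trans ?_
  have a1 : ((LAM.fr S).card : ℝ) ≤ Fintype.card V := Nat.cast_le.2 (card_le_univ _)
  refine (mul_le_mul_of_nonneg_left a1 (by positivity)).trans (le_of_eq ?_)
  field_simp

end Pool.Agent.MP_81f5b7_pr.H66
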